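import Pool.Agent.Hhelper92.Ortho.KappaNe

open Complex Filter Asymptotics

namespace Pool.Agent.Results.MP_f2798c_nt.OrthoAsymptotic

/-- `c` is the sequence of orthorecursive coefficients of unity: `c 0 = 1` and
`∑_{k=0}^{N} c_k/(N+k+1) = 0` for every `N ≥ 1`. -/
def IsCoeff (c : ℕ → ℝ) : Prop :=
  c 0 = 1 ∧ ∀ N : ℕ, 1 ≤ N → ∑ k ∈ Finset.range (N + 1), c k / ((N : ℝ) + k + 1) = 0

/-- `g*(z) = 2 z ∑_{j ≥ 0} (-1)^j/(z-j)`, the terms `2j` and `2j+1` being paired. -/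
noncomputable def gStar (z : ℂ) : ℂ :=
  2 * z * ∑' j : ℕ, (1 / (z - 2 * j) - 1 / (z - (2 * j + 1)))

/-- `z` is a zero of the meromorphic function `g*` (away from `0, 1, 2, ...`). -/
def IsZeroOfGStar (z : ℂ) : Prop := (∀ n : ℕ, z ≠ n) ∧ gStar z = 0

/-- `ρ` is the zero of `g*` in the upper half plane with the smallest positive real part. -/
def IsRhoOne (ρ : ℂ) : Prop :=
  IsZeroOfGStar ρ ∧ 0 < ρ.im ∧ 0 < ρ.re ∧ ∀ z : ℂ, IsZeroOfGStar z → 0 < z.re → ρ.re ≤ z.re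

open Pool.Agent.Hhelper92.Ortho in
lemma isRhoOne_rho : IsRhoOne rho := by
  have him := rho_im_pos
  refine ⟨⟨?_, gStar_rho⟩, him, by linarith [rho_re_gt], ?_⟩
  · intro n h
    rw [h] at him
    simp at him
  · rintro z ⟨hz1, hz2⟩ _
    rcases le_or_gt z.re (17/10) with h | h
    · have h0 : z ≠ 0 := by have := hz1 0; simpa using this
      have h1 : z ≠ 1 := by have := hz1 1; simpa using this
      have h2 := gStar_formula (z := z) (by linarith) h0 h1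
      change gStar z = 0 at hz2
      have h3 : Pool.Agent.Hhelper92.Ortho.gStar z = 0 := hz2
      rw [h3, mul_zero] at h2
      rw [eq_comm, G_zero_iff h] at h2
      rcases h2 with h2 | h2
      · rw [h2]
      · rw [h2]; simp
    · linarith [rho_re_lt]

open Pool.Agent.Hhelper92.Ortho in
lemma eq_rho {ρ : ℂ} (hρ : IsRhoOne ρ) : ρ = rho := by
  obtain ⟨⟨hz1, hz2⟩, him, hre, hmin⟩ := hρ
  have h4 := hmin rho isRhoOne_rho.1 isRhoOne_rho.2.2.1
  have h : ρ.re ≤ 17/10 := by linarith [rho_re_lt]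
  have h0 : ρ ≠ 0 := by have := hz1 0; simpa using this
  have h1 : ρ ≠ 1 := by have := hz1 1; simpa using this
  have h2 := gStar_formula (z := ρ) (by linarith) h0 h1
  have h3 : Pool.Agent.Hhelper92.Ortho.gStar ρ = 0 := hz2
  rw [h3, mul_zero] at h2
  rw [eq_comm, G_zero_iff h] at h2
  rcases h2 with h2 | h2
  · exact h2
  · exfalso
    rw [h2] at him
    have := rho_im_pos
    simp at him
    linarith

/-- the recursion -/
noncomputable def cs : ℕ → ℝ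
  | 0 => 1
  | (n+1) => -(2 * ((n:ℝ) + 1) + 1) * ∑ k : Fin (n+1), cs k.1 / (((n:ℝ) + 1) + (k.1:ℝ) + 1)

lemma isCoeff_cs : IsCoeff cs := by
  refine ⟨by rw [cs], ?_⟩
  intro N hN
  obtain ⟨n, rfl⟩ : ∃ n, N = n + 1 := ⟨N - 1, by omega⟩
  rw [Finset.sum_range_succ]
  have h1 : cs (n+1) = -(2 * ((n:ℝ) + 1) + 1) * ∑ k ∈ Finset.range (n+1), cs k / (((n:ℝ) + 1) + (k:ℝ) + 1) := by
    rw [cs, Finset.sum_range (fun k => cs k / (((n:ℝ) + 1) + (k:ℝ) + 1))]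
  rw [h1]
  push_cast
  have h2 : ((n:ℝ) + 1 + (n + 1) + 1) ≠ 0 := by positivity
  field_simp
  ring

lemma coeff_unique {c c' : ℕ → ℝ} (h : IsCoeff c) (h' : IsCoeff c') : c = c' := by
  funext n
  induction n using Nat.strong_induction_on with
  | _ n ih =>
    rcases Nat.eq_zero_or_pos n with h0 | h0
    · rw [h0, h.1, h'.1]
    · have e1 := h.2 n h0
      have e2 := h'.2 n h0
      rw [Finset.sum_range_succ] at e1 e2
      have e3 : ∑ k ∈ Finset.range n, c k / ((n:ℝ) + k + 1) = ∑ k ∈ Finset.range n, c' k / ((n:ℝ) + k + 1) := by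
        apply Finset.sum_congr rfl
        intro k hk
        rw [ih k (Finset.mem_range.mp hk)]
      rw [e3] at e1
      have e4 : c n / ((n:ℝ) + n + 1) = c' n / ((n:ℝ) + n + 1) := by linarith
      have e5 : ((n:ℝ) + n + 1) ≠ 0 := by positivity
      field_simp at e4
      exact e4

/-- **Q1 in full.**  The orthorecursive coefficients of unity satisfy
`c_n = 2 Re(κ n^{-1-ρ₁}) + O(n^{-1-σ})` with `κ ≠ 0` and `σ > Re ρ₁`. -/
theorem result :
    (∃! c : ℕ → ℝ, IsCoeff c) ∧ (∃! ρ : ℂ, IsRhoOne ρ) ∧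
    ∀ c : ℕ → ℝ, IsCoeff c → ∀ ρ : ℂ, IsRhoOne ρ →
      ∃ κ : ℂ, κ ≠ 0 ∧ ∃ σ : ℝ, ρ.re < σ ∧
        (fun n : ℕ => c n - 2 * (κ * (n : ℂ) ^ (-1 - ρ)).re) =O[atTop]
          fun n : ℕ => (n : ℝ) ^ (-1 - σ) := by
  refine ⟨⟨cs, isCoeff_cs, fun c hc => coeff_unique hc isCoeff_cs⟩,
    ⟨Pool.Agent.Hhelper92.Ortho.rho, isRhoOne_rho, fun ρ hρ => eq_rho hρ⟩, ?_⟩
  intro c hc ρ hρ
  rw [eq_rho hρ]
  have hc' : Pool.Agent.Hhelper92.Ortho.IsOrtho c := ⟨hc.1, hc.2⟩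
  have h1 := Pool.Agent.Hhelper92.Ortho.rho_re_lt
  have h2 := Pool.Agent.Hhelper92.Ortho.rho_re_gt
  refine ⟨Pool.Agent.Hhelper92.Ortho.res1 c,
    Pool.Agent.Hhelper92.Ortho.res1_ne_zero (Pool.Agent.Hhelper92.Ortho.Est_rho_ne hc'),
    (Pool.Agent.Hhelper92.Ortho.rho.re + 17/10) / 2, by linarith, ?_⟩
  exact Pool.Agent.Hhelper92.Ortho.c_asym hc' (by linarith) (by linarith)

end Pool.Agent.Results.MP_f2798c_nt.OrthoAsymptotic
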